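import Mathlib

namespace Pool.Agent.Results.MP_267066_co.TwoN

open Finset

theorem result : ∀ (n : ℕ), 1 ≤ n → ∀ B₀ B₁ : Finset (Fin n → ℚ),
    (∀ i j : Fin n, i ≤ j → ∃ b₀ ∈ B₀, ∃ b₁ ∈ B₁,
      b₀ + b₁ = (Pi.single i 1 + Pi.single j 1 : Fin n → ℚ)) →
    2 * n ≤ B₀.card + B₁.card := by
  intro n hn B₀ B₁ h
  obtain ⟨n, rfl⟩ : ∃ m, n = m + 1 := ⟨n - 1, by omega⟩
  choose u hu w hw e using h
  let V := B₀ ⊕ B₁
  let U : ∀ i j : Fin (n + 1), i ≤ j → V := fun i j q => Sum.inl ⟨u i j q, hu i j q⟩
  let W : ∀ i j : Fin (n + 1), i ≤ j → V := fun i j q => Sum.inr ⟨w i j q, hw i j q⟩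
  let f : V → Fin (n + 1) → ℚ := Sum.elim (fun x => x.1) (fun x => -x.1)
  have hf : ∀ i j q k, f (U i j q) k = f (W i j q) k +
      (((if k = i then 1 else 0) + (if k = j then 1 else 0) : ℤ) : ℚ) := by
    intro i j q k
    have := congrFun (e i j q) k
    simp only [Pi.add_apply, Pi.single_apply] at this
    simp only [f, U, W, Sum.elim_inl, Sum.elim_inr, Pi.neg_apply]
    push_cast
    linarith
  let d : Fin (n + 1) ⊕ Fin (n + 1) → V → ℚ := Sum.elim
    (fun i => Pi.single (U i i le_rfl) 1 - Pi.single (W i i le_rfl) 1)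
    (fun j => Pi.single (U 0 j (Fin.zero_le j)) 1 -
      if j = 0 then 0 else Pi.single (W 0 j (Fin.zero_le j)) 1)
  have li : LinearIndependent ℚ d := by
    rw [Fintype.linearIndependent_iff]
    intro c hc
    have key : ∀ g : V → ℚ, ∑ i, c (Sum.inl i) * (g (U i i le_rfl) - g (W i i le_rfl)) +
        ∑ j, c (Sum.inr j) * (g (U 0 j (Fin.zero_le j)) -
          if j = 0 then 0 else g (W 0 j (Fin.zero_le j))) = 0 := by
      intro g
      have := congrArg (fun x => g ⬝ᵥ x) hc
      simp only [dotProduct_sum, dotProduct_smul, dotProduct_zero, Fintype.sum_sum_type, d,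
        Sum.elim_inl, Sum.elim_inr, dotProduct_sub, dotProduct_single, mul_one, smul_eq_mul,
        dotProduct_add, apply_ite (fun x => g ⬝ᵥ x)] at this
      exact this
    have c0 : c (Sum.inr 0) = 0 := by
      have := key fun _ => 1
      rw [sum_eq_single (0 : Fin (n + 1)) (f := fun j => c (Sum.inr j) * _)
        (fun j _ hj => by simp [hj]) (by simp)] at this
      simpa using this
    have c1 : ∀ j, c (Sum.inr j) = 0 := by
      intro j
      by_cases hj : j = 0
      · rw [hj, c0]
      have := key fun v => ((⌊f v j⌋ % 2 : ℤ) : ℚ)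
      rw [sum_eq_zero, zero_add, sum_eq_single j, if_neg hj, mul_eq_zero] at this
      · refine this.resolve_right ?_
        rw [hf, Int.floor_add_intCast, if_neg hj, if_pos rfl, sub_eq_zero, Int.cast_inj]
        omega
      · intro k _ hk
        by_cases q : k = 0
        · rw [q, c0, zero_mul]
        · rw [if_neg q, hf, Int.floor_add_intCast, if_neg hj, if_neg (Ne.symm hk)]
          simp
      · simp
      · intro i _
        rw [hf, Int.floor_add_intCast]
        refine mul_eq_zero_of_right _ (sub_eq_zero.2 (congrArg _ ?_))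
        split_ifs <;> omega
    rintro (i | j)
    · have := key fun v => f v i
      simp only [c1, zero_mul, sum_const_zero, add_zero, hf, add_sub_cancel_left] at this
      rw [sum_eq_single i (fun k _ hk => by simp [Ne.symm hk]) (by simp)] at this
      simp only [if_true] at this
      exact (mul_eq_zero.1 this).resolve_right (by norm_num)
    · exact c1 j
  have := li.fintype_card_le_finrank
  simp only [V, Fintype.card_sum, Fintype.card_fin, Module.finrank_fintype_fun_eq_card,
    Fintype.card_coe] at this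
  omega

end Pool.Agent.Results.MP_267066_co.TwoN
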